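import Pool.Agent.Helper60.EV2.Exist
import Pool.Agent.Helper27.EV2.Defs
import Pool.Agent.Helper2.PD.Faces

/-!
# EV3: planar connected shadows: index function, existence and uniqueness of the Conway polynomial, signs, degree, parity
-/

set_option autoImplicit false

namespace Pool.Agent.Helper60.PD

open Polynomial Pool.Agent.Helper85.Exp Pool.Agent.Helper60.EV2 Pool.Agent.Helper2.PD Pool.Agent.Helper27.EV2

variable {P : Type} {G : Sh P}

/-- The index function of a shadow with an index on its faces. -/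
theorem ix_of (ho : ∀ i, G.op i ≠ i) {k : Face G → ℤ} (hk : ∀ i, k (Lf G i) = k (Rf G i) + 1) :
    Ix G fun i => -k (Rf G (G.nxt.symm i)) where
  triv i h := absurd h (ho i)
  cr i _ hl := by
    have e1 := hk (G.nxt.symm i)
    have e2 := hk (G.nxt.symm (G.op i))
    have e3 := hk i
    rw [corner_S hl] at e1
    rw [← corner_W hl (ho i), e3] at e2
    simp only [Equiv.symm_apply_apply]
    rw [← corner_E hl (ho i)]
    refine ⟨?_, ?_, ?_⟩ <;> linarith

variable [Fintype P]

/-- **Existence and uniqueness** (`hw`: the writhe of the descending one-component diagrams is constant). -/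
theorem exists_unique (hc : Conn G) (ho : ∀ i, G.op i ≠ i) (hp : Planar G) (b : P) (n : ℤ)
    (hw : ∀ D : Dg G, (∀ i, ∃ k : ℕ, D.tr^[k] b = i) → Des D b → wr D = n) : ∃! nab : Dg G → ℤ[X], Cs nab := by
  obtain ⟨k, hk⟩ := exists_kappa hc ho hp
  obtain ⟨nab, hn⟩ := exists_cs (ix_of ho hk) b n hw
  have : Nonempty P := ⟨b⟩
  exact ⟨nab, hn, fun nab' h' => Cs.unique h' hn⟩

theorem unv_card (ho : ∀ i, G.op i ≠ i) (b : P) : 2 * (unv (allPos G) b 0).card ≤ Nat.card P := by
  classical
  have e1 : (unv (allPos G) b 0).card = ((unv (allPos G) b 0).image G.op).card := by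
    rw [Finset.card_image_of_injective _ (op_inj G)]
  have hd : Disjoint (unv (allPos G) b 0) ((unv (allPos G) b 0).image G.op) := by
    rw [Finset.disjoint_left]
    intro i hi hi'
    obtain ⟨j, hj, rfl⟩ := Finset.mem_image.1 hi'
    have h1 := (mem_unv.1 hi).1
    have h2 := (mem_unv.1 hj).1
    have h3 := G.lf_op j (ho j)
    have h4 : G.lf (G.op j) = true := h1.2.1
    have h5 : G.lf j = true := h2.2.1
    rw [h4, h5] at h3
    exact absurd h3 (by decide)
  have h1 := Finset.card_le_univ (unv (allPos G) b 0 ∪ (unv (allPos G) b 0).image G.op)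
  rw [Finset.card_union_of_disjoint hd, ← e1] at h1
  rw [Nat.card_eq_fintype_card]
  omega

/-- Signs, degree and parity. -/
theorem nab_nn [Nonempty P] (ho : ∀ i, G.op i ≠ i) {nab : Dg G → ℤ[X]} (h : Cs nab) :
    (∀ k, 0 ≤ (nab (allPos G)).coeff k) ∧ 2 * (nab (allPos G)).natDegree ≤ Nat.card P ∧
      ∀ j k, (nab (allPos G)).coeff j ≠ 0 → (nab (allPos G)).coeff k ≠ 0 → j % 2 = k % 2 := by
  obtain ⟨b⟩ := ‹Nonempty P›
  have hD : ∀ i, G.op i ≠ i → (allPos G).st i = .pos ∨ (allPos G).st i = .smooth := fun i _ => Or.inl rfl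
  refine ⟨fun k => coeff_nonneg (h.cw b) _ hD k, ?_, fun j k hj hk => parity (h.cw b) _ hD hj hk⟩
  have h1 : (nab (allPos G)).natDegree ≤ (unv (allPos G) b 0).card := by
    rw [natDegree_le_iff_coeff_eq_zero]
    intro m hm
    exact coeff_eq_zero (h.cw b) _ hD hm
  have h2 := unv_card ho b
  omega

end Pool.Agent.Helper60.PD
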