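import Pool.Agent.Helper60.PD.Cur
import Pool.Agent.Helper2.PD.Faces

/-!
# EV3: the permutation of the arcs, connectedness of the labels
-/

set_option autoImplicit false

namespace Pool.Agent.Helper60.PD

open Pool.Agent.Helper85.Exp Pool.Agent.Helper29.PD

variable {P : Type} {G : Sh P} {C : Finset P} {tau : P → ℕ} {lb : P → {x // x ∈ C}}

theorem lb_inj (h : Cutd G C tau lb) {e f : P} (he : e ∈ C) (hf : f ∈ C) (hl : lb e = lb f) : e = f := by
  rcases le_total (tau e) (tau f) with h1 | h1
  · rcases h.order hl h1 with h2 | h2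
    · exact h2
    · exact absurd he h2.1
  · rcases h.order hl.symm h1 with h2 | h2
    · exact h2.symm
    · exact absurd hf h2.1

/-- The arc which ends on the cut edge `e`. -/
noncomputable def endArc (h : Cutd G C tau lb) : Equiv.Perm {x // x ∈ C} :=
  Equiv.ofBijective (fun e => lb e.1) (Finite.injective_iff_bijective.1 fun e f hl => Subtype.ext (lb_inj h e.2 f.2 hl))

/-- The arc `x` ends on the cut edge `arcPerm h x`, where the arc `arcPerm h x` starts. -/
noncomputable def arcPerm (h : Cutd G C tau lb) : Equiv.Perm {x // x ∈ C} := (endArc h).symm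

theorem endArc_apply (h : Cutd G C tau lb) (e : {x // x ∈ C}) : endArc h e = lb e.1 := rfl

theorem lb_arcPerm (h : Cutd G C tau lb) (x : {x // x ∈ C}) : lb (arcPerm h x).1 = x :=
  (endArc h).apply_symm_apply x

theorem arcPerm_lb (h : Cutd G C tau lb) (e : {x // x ∈ C}) : arcPerm h (lb e.1) = e :=
  (endArc h).symm_apply_apply e

/-- The last edge of the arc `x`. -/
theorem cur_all (h : Cutd G C tau lb) {A : List P} (hs : A.Pairwise (fun a b => tau a < tau b))
    (hall : ∀ e, e ∈ A ∨ G.op e ∈ A) (x : {x // x ∈ C}) : cur G lb A x = (arcPerm h x).1 := by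
  have h1 := cur_end h hs hall (arcPerm h x).2
  have h2 := lb_arcPerm h x
  rw [h2] at h1
  exact h1

/-- A set of labels which is closed under crossings and under the passage to the next arc contains everything or nothing. -/
theorem lab_conn (h : Cutd G C tau lb) (hc : Pool.Agent.Helper2.PD.Conn G) (S : {x // x ∈ C} → Prop) {i0 : {x // x ∈ C}}
    (h0 : S i0) (hcr : ∀ p, G.lf p = true → (S (lb p) ↔ S (lb (G.op p)))) (hpi : ∀ i, S i ↔ S (arcPerm h i)) (i : {x // x ∈ C}) :
    S i := by
  have hop : ∀ p, S (lb (G.op p)) ↔ S (lb p) := by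
    intro p
    cases hl : G.lf p with
    | true => exact (hcr p hl).symm
    | false =>
      have h1 : G.lf (G.op p) = true := by rw [G.lf_op p (h.op_ne p), hl]; rfl
      have h2 := hcr _ h1
      rwa [G.op_op] at h2
  have hnx : ∀ v, S (lb (G.nxt v)) ↔ S (lb v) := by
    intro v
    rw [← hop (G.nxt v)]
    by_cases hv : v ∈ C
    · rw [h.lbC v hv, hpi (lb v), ← arcPerm_lb h ⟨v, hv⟩]
    · rw [h.lbN v hv]
  have hall : ∀ v, S (lb v) := by
    apply hc (fun v => S (lb v))
    · exact ⟨G.op (G.nxt i0.1), by rw [h.lbC i0.1 i0.2]; exact h0⟩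
    · exact hnx
    · exact hop
  have h1 := hall (G.op (G.nxt i.1))
  rwa [h.lbC i.1 i.2] at h1

end Pool.Agent.Helper60.PD
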