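import Pool.Agent.Helper60.PD.Exist
import Pool.Agent.Helper76.PD.RevFa

/-!
# EV3: the Conway polynomial of the diagrams on a connected planar shadow: existence, uniqueness, the Dehn determinant
-/

set_option autoImplicit false

namespace Pool.Agent.Helper60.PD

open Polynomial Pool.Agent.Helper85.Exp Pool.Agent.Helper60.EV2 Pool.Agent.Helper2.PD Pool.Agent.Helper16.PD

variable {P : Type} [Fintype P] {G : Sh P}

/-- The bijection of the crossings with the faces which do not touch the base edge. -/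
theorem exists_eq [DecidableEq P] (hc : Conn G) (ho : ∀ i, G.op i ≠ i) (hp : Planar G) (b : P) :
    Nonempty (Cr G ≃ (faceFa G ho).Fr b) := by
  classical
  obtain ⟨k, hk⟩ := exists_kappa hc ho hp
  let _ : Fintype (Face G) := Fintype.ofFinite _
  exact (faceFa G ho).card_Fr k hk b (card_face G ho hp)

/-- **Existence and uniqueness** of the Conway polynomial of the diagrams on a connected planar shadow. -/
theorem exists_unique_nab [Nonempty P] (hc : Conn G) (ho : ∀ i, G.op i ≠ i) (hp : Planar G) : ∃! nab : Dg G → ℤ[X], Cs nab := by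
  classical
  obtain ⟨b⟩ := ‹Nonempty P›
  obtain ⟨k, hk⟩ := exists_kappa hc ho hp
  obtain ⟨ε⟩ := exists_eq hc ho hp b
  let _ : Fintype (Face G) := Fintype.ofFinite _
  exact exists_unique hc ho hp b _ fun D h1 h2 => Pool.Agent.Helper76.PD.wr_des (faceFa G ho) hc k hk b ε D h1 h2

/-- **The Dehn determinant**: `∇(1/u - u) = ± det Dn`, with one sign for all diagrams on the shadow, all rings and all units. -/
theorem nab_dehn [DecidableEq P] {F : Type} [Fintype F] [DecidableEq F] (A : Fa G F) (hc : Conn G) (κ : F → ℤ)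
    (hκ : ∀ p, κ (A.L p) = κ (A.R p) + 1) (b : P) (ε : Cr G ≃ A.Fr b) :
    ∃ c : ℤ, (c = 1 ∨ c = -1) ∧ ∀ nab : Dg G → ℤ[X], Cs nab → ∀ (R : Type) [CommRing R] (u : Rˣ) (D : Dg G),
      aeval (((u⁻¹ : Rˣ) : R) - (u : R)) (nab D) =
        (c : R) * (Matrix.of fun x y : Cr G => A.dn (u : R) ((u⁻¹ : Rˣ) : R) D x (ε y).1).det := by
  obtain ⟨c, hc1, hc2⟩ := dehn A hc κ hκ b ε
  refine ⟨c, hc1, ?_⟩
  intro nab hn R _ u D
  have h1 := conway_formula u b (-((∑ y : Cr G, κ (ε y).1) - ∑ x : Cr G, κ (A.R x.1)))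
    (fun D h1 h2 => Pool.Agent.Helper76.PD.wr_des A hc κ hκ b ε D h1 h2) (hn.cw b) D
  rw [h1, hc2 R u D]
  generalize (Matrix.of fun x y : Cr G => A.dn (u : R) ((u⁻¹ : Rˣ) : R) D x (ε y).1).det = d
  generalize (∑ y : Cr G, κ (ε y).1) - ∑ x : Cr G, κ (A.R x.1) = α
  have h2 : ((u ^ (-α - wr D) : Rˣ) : R) * ((u ^ (α + wr D) : Rˣ) : R) = 1 := by
    rw [← Units.val_mul, ← zpow_add]
    have : -α - wr D + (α + wr D) = 0 := by ring
    rw [this, zpow_zero, Units.val_one]
  calc ((u ^ (-α - wr D) : Rˣ) : R) * ((c : R) * ((u ^ (α + wr D) : Rˣ) : R) * d)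
      = (((u ^ (-α - wr D) : Rˣ) : R) * ((u ^ (α + wr D) : Rˣ) : R)) * ((c : R) * d) := by ring
    _ = (c : R) * d := by rw [h2, one_mul]

end Pool.Agent.Helper60.PD
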