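import Pool.Agent.Helper29.PD.Sch

/-!
# EV3: the current edges of the arcs of a cut shadow

`cur G lb A x`: the edge on which the arc `x` is after the crossings of the list `A` (one passage for each crossing).
-/

set_option autoImplicit false

namespace Pool.Agent.Helper60.PD

open Pool.Agent.Helper85.Exp Pool.Agent.Helper29.PD

variable {P : Type} {G : Sh P} {C : Finset P} {tau : P → ℕ} {lb : P → {x // x ∈ C}}

open Classical in
/-- The crossing of `p` moves the arcs `lb p` and `lb (op p)`. -/
noncomputable def stp (G : Sh P) (lb : P → {x // x ∈ C}) (c : {x // x ∈ C} → P) (p : P) : {x // x ∈ C} → P :=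
  fun x => if lb p = x then p else if lb (G.op p) = x then G.op p else c x

/-- The current edges after the crossings of the list `A`. -/
noncomputable def cur (G : Sh P) (lb : P → {x // x ∈ C}) (A : List P) : {x // x ∈ C} → P :=
  A.foldl (stp G lb) Subtype.val

theorem cur_nil (x : {x // x ∈ C}) : cur G lb [] x = x.1 := rfl

theorem cur_append (A : List P) (p : P) (x : {x // x ∈ C}) :
    cur G lb (A ++ [p]) x = stp G lb (cur G lb A) p x := by
  unfold cur
  rw [List.foldl_append]
  rfl

theorem stp_left (c : {x // x ∈ C} → P) (p : P) : stp G lb c p (lb p) = p := if_pos rfl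

theorem stp_right (h : Cutd G C tau lb) (c : {x // x ∈ C} → P) (p : P) : stp G lb c p (lb (G.op p)) = G.op p := by
  unfold stp
  rw [if_neg (h.lb_ne p), if_pos rfl]

theorem stp_of (c : {x // x ∈ C} → P) {p : P} {x : {x // x ∈ C}} (h1 : lb p ≠ x) (h2 : lb (G.op p) ≠ x) :
    stp G lb c p x = c x := by
  unfold stp
  rw [if_neg h1, if_neg h2]

theorem cur_none {x : {x // x ∈ C}} : ∀ (A : List P), (∀ c ∈ A, lb c ≠ x ∧ lb (G.op c) ≠ x) → cur G lb A x = x.1 := by
  intro A
  induction A using List.reverseRecOn with
  | nil => intro _; rfl
  | append_singleton A p ih =>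
    intro h
    rw [cur_append, stp_of _ (h p (by simp)).1 (h p (by simp)).2]
    exact ih fun c hc => h c (by simp [hc])

theorem cur_last (h : Cutd G C tau lb) {e : P} : ∀ (A : List P), A.Pairwise (fun a b => tau a < tau b) →
    (e ∈ A ∨ G.op e ∈ A) → (∀ c ∈ A, (lb c = lb e ∨ lb (G.op c) = lb e) → tau c ≤ tau e) → cur G lb A (lb e) = e := by
  intro A
  induction A using List.reverseRecOn with
  | nil =>
    intro _ h1
    simp at h1
  | append_singleton A p ih =>
    intro hs hm hmax
    rw [cur_append]
    rw [List.pairwise_append] at hs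
    by_cases h1 : e = p
    · rw [← h1]
      exact stp_left _ _
    by_cases h2 : G.op e = p
    · have h3 : e = G.op p := by rw [← h2, G.op_op]
      rw [h3]
      exact stp_right h _ _
    have hm' : e ∈ A ∨ G.op e ∈ A := by
      rcases hm with hm | hm
      · left
        rcases List.mem_append.1 hm with h3 | h3
        · exact h3
        · exact absurd (List.mem_singleton.1 h3) h1
      · right
        rcases List.mem_append.1 hm with h3 | h3
        · exact h3
        · exact absurd (List.mem_singleton.1 h3) h2
    have hlt : tau e < tau p := by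
      rcases hm' with h3 | h3
      · exact hs.2.2 e h3 p (by simp)
      · have := hs.2.2 _ h3 p (by simp)
        rwa [h.top] at this
    have h3 := hmax p (by simp)
    rw [stp_of]
    · exact ih hs.1 hm' fun c hc => hmax c (by simp [hc])
    · intro h4
      have := h3 (Or.inl h4)
      omega
    · intro h4
      have := h3 (Or.inr h4)
      omega

/-- Before the crossing of `p` the arc `lb p` is on the edge into the passage `op p`. -/
theorem cur_before (h : Cutd G C tau lb) {A : List P} {p : P} (hs : A.Pairwise (fun a b => tau a < tau b))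
    (hlt : ∀ a ∈ A, tau a < tau p) (hall : ∀ e, tau e < tau p → e ∈ A ∨ G.op e ∈ A) :
    cur G lb A (lb p) = G.nxt.symm (G.op p) := by
  rcases h.prev p with ⟨x, hx, hx'⟩ | ⟨f, hfC, hf, hfl, hft⟩
  · rw [hx, cur_none, ← hx', Equiv.symm_apply_apply]
    intro c hc
    have h1 := hlt c hc
    have key : ∀ d, tau d = tau c → lb d ≠ x := by
      intro d hd hl
      have h2 := h.first _ d rfl
      rw [hl, hx', h.top] at h2
      omega
    exact ⟨key c rfl, key _ (h.top c)⟩
  · rw [hfl, cur_last h A hs (hall f hft), ← hf, Equiv.symm_apply_apply]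
    intro c hc hl
    have h1 := hlt c hc
    have key : ∀ d, tau d = tau c → lb d = lb f → tau c ≤ tau f := by
      intro d hd hl
      by_contra hcon
      rcases h.order hl.symm (by omega) with h2 | h2
      · rw [h2] at hcon
        omega
      · have h3 := h2.2
        rw [hf, h.top] at h3
        omega
    rcases hl with hl | hl
    · exact key c rfl hl
    · exact key _ (h.top c) hl

/-- After all crossings the arc `lb e`, `e` an edge of the cut, is on the edge `e`. -/
theorem cur_end (h : Cutd G C tau lb) {A : List P} (hs : A.Pairwise (fun a b => tau a < tau b))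
    (hall : ∀ e, e ∈ A ∨ G.op e ∈ A) {e : P} (he : e ∈ C) : cur G lb A (lb e) = e := by
  apply cur_last h A hs (hall e)
  intro c hc hl
  have key : ∀ d, tau d = tau c → lb d = lb e → tau c ≤ tau e := by
    intro d hd hl
    by_contra hcon
    rcases h.order hl.symm (by omega) with h2 | h2
    · rw [h2] at hcon
      omega
    · exact h2.1 he
  rcases hl with hl | hl
  · exact key c rfl hl
  · exact key _ (h.top c) hl

end Pool.Agent.Helper60.PD
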