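import Pool.Agent.Helper60.PD.Cur

/-!
# EV3: a list of the crossings with the order of every arc defines a time
-/

set_option autoImplicit false

namespace Pool.Agent.Helper60.PD

open Pool.Agent.Helper85.Exp Pool.Agent.Helper29.PD

variable {P : Type} {G : Sh P} {C : Finset P} {tau : P → ℕ} {lb : P → {x // x ∈ C}}

/-- The passage of the crossing with `lf = true`. -/
def rep (G : Sh P) (p : P) : P := if G.lf p = true then p else G.op p

theorem lf_rep (ho : ∀ p, G.op p ≠ p) (p : P) : G.lf (rep G p) = true := by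
  unfold rep
  by_cases h : G.lf p = true
  · rw [if_pos h]
    exact h
  · rw [if_neg h, G.lf_op p (ho p)]
    rw [Bool.not_eq_true] at h
    rw [h]
    rfl

theorem rep_op (ho : ∀ p, G.op p ≠ p) (p : P) : rep G (G.op p) = rep G p := by
  unfold rep
  rw [G.lf_op p (ho p), G.op_op]
  cases G.lf p <;> simp

theorem rep_or (p : P) : rep G p = p ∨ rep G p = G.op p := by
  unfold rep
  by_cases h : G.lf p = true
  · rw [if_pos h]
    exact Or.inl rfl
  · rw [if_neg h]
    exact Or.inr rfl

theorem or_rep (p : P) : p = rep G p ∨ p = G.op (rep G p) := by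
  rcases rep_or (G := G) p with h | h
  · exact Or.inl h.symm
  · right
    rw [h, G.op_op]

open Classical in
/-- The position of the crossing in the list. -/
noncomputable def tm (G : Sh P) (LL : List P) (p : P) : ℕ := LL.idxOf (rep G p)

theorem idxOf_lt_pairwise {α : Type*} [DecidableEq α] {LL : List α} (hnd : LL.Nodup) :
    LL.Pairwise (fun a b => LL.idxOf a < LL.idxOf b) := by
  rw [List.pairwise_iff_getElem]
  intro i j hi hj hij
  rw [hnd.idxOf_getElem, hnd.idxOf_getElem]
  exact hij

/-- **Retiming**: a list of the crossings in which the crossings of every arc come in their order. -/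
theorem retime (h : Cutd G C tau lb) {LL : List P} (hnd : LL.Nodup) (hlf : ∀ p ∈ LL, G.lf p = true)
    (hall : ∀ p, G.lf p = true → p ∈ LL)
    (hord : LL.Pairwise (fun a b => ∀ e e', (e = a ∨ e = G.op a) → (e' = b ∨ e' = G.op b) → lb e = lb e' → tau e < tau e')) :
    Cutd G C (tm G LL) lb ∧ LL.Pairwise (fun a b => tm G LL a < tm G LL b) := by
  classical
  have hmem : ∀ p, rep G p ∈ LL := fun p => hall _ (lf_rep h.op_ne p)
  have hinj : ∀ p q, tm G LL p = tm G LL q → rep G p = rep G q := by
    intro p q e
    unfold tm at e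
    have h1 := List.getElem_idxOf (xs := LL) (List.idxOf_lt_length_iff.2 (hmem p))
    have h2 := List.getElem_idxOf (xs := LL) (List.idxOf_lt_length_iff.2 (hmem q))
    rw [← h1, ← h2]
    congr 1
  refine ⟨⟨h.op_ne, fun p => ?_, fun e he => ?_, fun p q e => ?_, h.lbC, h.lbN⟩, ?_⟩
  · unfold tm
    rw [rep_op h.op_ne]
  · have e1 : tm G LL (G.nxt e) = tm G LL (G.op (G.nxt e)) := by
      unfold tm
      rw [rep_op h.op_ne]
    rw [e1]
    have h1 : tau e < tau (G.op (G.nxt e)) := by
      rw [h.top]
      exact h.tnx e he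
    have h2 := h.lbN e he
    by_contra hcon
    rcases Nat.lt_or_eq_of_le (not_lt.1 hcon) with h3 | h3
    · have h4 := List.pairwise_iff_getElem.1 hord (tm G LL (G.op (G.nxt e))) (tm G LL e)
        (List.idxOf_lt_length_iff.2 (hmem _)) (List.idxOf_lt_length_iff.2 (hmem _)) h3
      have h5 : LL[tm G LL (G.op (G.nxt e))]'(List.idxOf_lt_length_iff.2 (hmem _)) = rep G (G.op (G.nxt e)) :=
        List.getElem_idxOf _
      have h6 : LL[tm G LL e]'(List.idxOf_lt_length_iff.2 (hmem _)) = rep G e := List.getElem_idxOf _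
      rw [h5, h6] at h4
      have h7 := h4 (G.op (G.nxt e)) e (or_rep _) (or_rep _) h2
      omega
    · have h4 := hinj _ _ h3
      have h5 : tau (rep G (G.op (G.nxt e))) = tau (rep G e) := by rw [h4]
      have h6 : ∀ p, tau (rep G p) = tau p := by
        intro p
        rcases rep_or (G := G) p with h7 | h7 <;> rw [h7]
        exact h.top p
      rw [h6, h6] at h5
      omega
  · have h4 := hinj _ _ e
    obtain ⟨r, hr⟩ : ∃ r, r = rep G p := ⟨_, rfl⟩
    have h5 := or_rep (G := G) p
    have h6 := or_rep (G := G) q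
    rw [← h4, ← hr] at h6
    rw [← hr] at h5
    rcases h5 with h5 | h5 <;> rcases h6 with h6 | h6
    · exact Or.inl (h6.trans h5.symm)
    · exact Or.inr (by rw [h5]; exact h6)
    · exact Or.inr (by rw [h5, G.op_op]; exact h6)
    · exact Or.inl (h6.trans h5.symm)
  · have h1 := idxOf_lt_pairwise hnd
    refine h1.imp_of_mem ?_
    intro a b ha hb hab
    unfold tm
    unfold rep
    rw [if_pos (hlf a ha), if_pos (hlf b hb)]
    exact hab

end Pool.Agent.Helper60.PD
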